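import Pool.Agent.Lib.MP_aad05f_lc.PolyReduce

set_option autoImplicit false

namespace Pool.Agent.Results.MP_aad05f_lc.RecognitionNPHard

open Pool.Agent.Lib.MP_aad05f_lc Pool.Agent.Lib.MP_0f8b55_lc Pool.Agent.Lib.PolyTime

/-- Membership in `3split₃` together with the partition: `K` is complete, `S` is stable, they
partition the vertices, and every vertex of `S` has exactly three neighbours. -/
def Is3split3 {V : Type} (G : SimpleGraph V) (K S : Set V) : Prop :=
  K ∪ S = Set.univ ∧ K ∩ S = ∅ ∧ G.IsClique K ∧ G.IsIndepSet S ∧ ∀ s ∈ S, (G.neighborSet s).ncard = 3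

/-- The code of a truth value. -/
def codeBool (b : Bool) : List Bool := codeNat (if b then 1 else 0)

theorem selfDelimiting_bool : SelfDelimiting codeBool := by
  intro a b s t h
  obtain ⟨h1, h2⟩ := selfDelimiting_nat _ _ _ _ h
  refine ⟨?_, h2⟩
  cases a <;> cases b <;> simp_all

/-- The code of a literal. -/
def codeLit : ℕ × Bool → List Bool := codePair codeNat codeBool

/-- The problem `3SAT`. -/
def ThreeSat : Problem where
  Inst := Formula
  Letter := Bool
  fin := inferInstance
  enc := codeList (codePair codeLit (codePair codeLit codeLit))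
  inj := (((selfDelimiting_nat.pair selfDelimiting_bool).pair
    ((selfDelimiting_nat.pair selfDelimiting_bool).pair
      (selfDelimiting_nat.pair selfDelimiting_bool))).list).injective
  Yes := Formula.Satisfiable

/-- The problem of the question: given a graph in `3split₃` together with its partition, is it a
clique graph? -/
def CliqueGraphs3split3 : Problem where
  Inst := Input
  Letter := Bool
  fin := inferInstance
  enc := fun I => codePair codeNat (codeList (codePair codeNat (codePair codeNat codeNat)))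
    (I.k, I.nbhd)
  inj := by
    rintro ⟨k, l, h⟩ ⟨k', l', h'⟩ e
    have e' := (selfDelimiting_nat.pair (selfDelimiting_nat.pair
      (selfDelimiting_nat.pair selfDelimiting_nat)).list).injective e
    simp only [Prod.mk.injEq] at e'
    obtain ⟨rfl, rfl⟩ := e'
    rfl
  Yes := fun I => IsCliqueGraph I.graph

theorem is3split3_graph (I : Input) :
    Is3split3 I.graph (Set.range Sum.inl) (Set.range Sum.inr) := by
  refine ⟨?_, ?_, ?_, ?_, ?_⟩
  · exact Set.range_inl_union_range_inr
  · exact Set.range_inl_inter_range_inr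
  · rintro _ ⟨a, rfl⟩ _ ⟨b, rfl⟩ hab
    exact fun h => hab (by rw [h])
  · rintro _ ⟨a, rfl⟩ _ ⟨b, rfl⟩ hab
    exact fun h => h
  · rintro _ ⟨s, rfl⟩
    obtain ⟨h1, h2, h3, h4, h5, h6⟩ := I.valid _ (List.get_mem I.nbhd s)
    have : I.graph.neighborSet (Sum.inr s) =
        {Sum.inl ⟨(I.nbhd.get s).1, h4⟩, Sum.inl ⟨(I.nbhd.get s).2.1, h5⟩,
          Sum.inl ⟨(I.nbhd.get s).2.2, h6⟩} := by
      ext u
      rcases u with a | t
      · constructor
        · intro h
          have h' : a ∈ I.N s := h
          rcases h' with h' | h' | h'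
          · left; rw [Sum.inl.injEq]; exact Fin.ext h'
          · right; left; rw [Sum.inl.injEq]; exact Fin.ext h'
          · right; right; exact congrArg Sum.inl (Fin.ext h')
        · intro h
          show a ∈ I.N s
          rcases h with h | h | h
          · rw [Sum.inl.injEq] at h; left; rw [h]
          · rw [Sum.inl.injEq] at h; right; left; rw [h]
          · have h := Sum.inl.inj (Set.mem_singleton_iff.1 h); right; right; rw [h]
      · constructor
        · intro h
          exact absurd h (fun h => h)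
        · intro h
          rcases h with h | h | h
          · exact absurd h (by simp)
          · exact absurd h (by simp)
          · exact absurd (Set.mem_singleton_iff.1 h) (by simp)
    rw [this, Set.ncard_eq_three]
    refine ⟨_, _, _, ?_, ?_, ?_, rfl⟩
    · intro h; exact h1 (congrArg Fin.val (Sum.inl.inj h))
    · intro h; exact h2 (congrArg Fin.val (Sum.inl.inj h))
    · intro h; exact h3 (congrArg Fin.val (Sum.inl.inj h))

theorem isCliqueGraph_congr {V V' : Type} {G : SimpleGraph V} {G' : SimpleGraph V'} (e : G ≃g G') :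
    IsCliqueGraph G ↔ IsCliqueGraph G' := by
  constructor
  · rintro ⟨W, hW, H, ⟨i⟩⟩
    exact ⟨W, hW, H, ⟨e.symm.trans i⟩⟩
  · rintro ⟨W, hW, H, ⟨i⟩⟩
    exact ⟨W, hW, H, ⟨e.trans i⟩⟩

/-- Every finite graph in `3split₃` with its partition is given by an input. -/
theorem exists_input {V : Type} [Finite V] (G : SimpleGraph V) (K S : Set V)
    (h : Is3split3 G K S) : ∃ (I : Input) (e : G ≃g I.graph),
      e '' K = Set.range Sum.inl ∧ e '' S = Set.range Sum.inr := by
  classical
  obtain ⟨h1, h2, h3, h4, h5⟩ := h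
  have hKS : ∀ v, v ∉ K ↔ v ∈ S := by
    intro v
    constructor
    · intro hv
      have : v ∈ K ∪ S := by rw [h1]; trivial
      exact this.resolve_left hv
    · intro hv hv'
      have : v ∈ K ∩ S := ⟨hv', hv⟩
      rw [h2] at this
      exact this
  have hS : Sᶜ = K := by
    ext v
    rw [Set.mem_compl_iff, ← hKS, not_not]
  -- numbering
  let eK : K ≃ Fin (Nat.card K) := Finite.equivFin K
  let eS : S ≃ Fin (Nat.card S) := Finite.equivFin S
  have hnb : ∀ s : S, ∃ a b c : K, a ≠ b ∧ a ≠ c ∧ b ≠ c ∧
      ∀ v, G.Adj s v ↔ v = a ∨ v = b ∨ v = c := by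
    rintro ⟨s, hs⟩
    obtain ⟨a, b, c, hab, hac, hbc, hN⟩ := Set.ncard_eq_three.1 (h5 s hs)
    have hm : ∀ v, G.Adj s v ↔ v = a ∨ v = b ∨ v = c := by
      intro v
      rw [← SimpleGraph.mem_neighborSet, hN]
      simp
    have hK : ∀ v, G.Adj s v → v ∈ K := by
      intro v hv
      by_contra hvK
      exact h4 hs ((hKS v).1 hvK) hv.ne hv
    refine ⟨⟨a, hK a ((hm a).2 (Or.inl rfl))⟩, ⟨b, hK b ((hm b).2 (Or.inr (Or.inl rfl)))⟩,
      ⟨c, hK c ((hm c).2 (Or.inr (Or.inr rfl)))⟩, ?_, ?_, ?_, hm⟩
    · exact fun h => hab (congrArg Subtype.val h)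
    · exact fun h => hac (congrArg Subtype.val h)
    · exact fun h => hbc (congrArg Subtype.val h)
  choose a b c hab hac hbc hN using hnb
  let L : List (ℕ × ℕ × ℕ) := List.ofFn (fun i : Fin (Nat.card S) =>
    ((eK (a (eS.symm i))).val, (eK (b (eS.symm i))).val, (eK (c (eS.symm i))).val))
  have hval : ∀ t ∈ L, t.1 ≠ t.2.1 ∧ t.1 ≠ t.2.2 ∧ t.2.1 ≠ t.2.2 ∧ t.1 < Nat.card K ∧
      t.2.1 < Nat.card K ∧ t.2.2 < Nat.card K := by
    intro t ht
    obtain ⟨i, rfl⟩ := (List.mem_ofFn' _ _).1 ht
    refine ⟨?_, ?_, ?_, Fin.is_lt _, Fin.is_lt _, Fin.is_lt _⟩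
    · exact fun h => hab _ (eK.injective (Fin.ext h))
    · exact fun h => hac _ (eK.injective (Fin.ext h))
    · exact fun h => hbc _ (eK.injective (Fin.ext h))
  have hlen : L.length = Nat.card S := List.length_ofFn
  let I : Input := ⟨Nat.card K, L, hval⟩
  have hc : Kᶜ = S := by
    ext v
    exact hKS v
  let f : V ≃ Fin I.k ⊕ Fin I.nbhd.length :=
    ((Equiv.Set.sumCompl K).symm.trans (Equiv.sumCongr eK
      ((Equiv.setCongr hc).trans (eS.trans (finCongr hlen.symm)))))
  have hfK : ∀ v (hv : v ∈ K), f v = Sum.inl (eK ⟨v, hv⟩) := by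
    intro v hv
    simp only [f, Equiv.trans_apply, Equiv.Set.sumCompl_symm_apply_of_mem hv]
    rfl
  have hfS : ∀ v (hv : v ∈ S), f v = Sum.inr (finCongr hlen.symm (eS ⟨v, hv⟩)) := by
    intro v hv
    simp only [f, Equiv.trans_apply, Equiv.Set.sumCompl_symm_apply_of_notMem ((hKS v).2 hv)]
    rfl
  have hget : ∀ s : S, I.nbhd.get (finCongr hlen.symm (eS s)) =
      ((eK (a s)).val, (eK (b s)).val, (eK (c s)).val) := by
    intro s
    have hg : ∀ i : Fin (Nat.card S), L.get (finCongr hlen.symm i) =
        ((eK (a (eS.symm i))).val, (eK (b (eS.symm i))).val, (eK (c (eS.symm i))).val) := by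
      intro i
      rw [List.get_ofFn]
      rfl
    have := hg (eS s)
    rw [Equiv.symm_apply_apply] at this
    exact this
  have hNs : ∀ (s : S) (k : K), eK k ∈ I.N (finCongr hlen.symm (eS s)) ↔ G.Adj s k := by
    intro s k
    rw [hN s k]
    have e : ∀ x : K, (eK k).val = (eK x).val ↔ (k : V) = x := by
      intro x
      rw [← Fin.ext_iff, eK.injective.eq_iff, Subtype.ext_iff]
    show (eK k).val = (I.nbhd.get (finCongr hlen.symm (eS s))).1 ∨
      (eK k).val = (I.nbhd.get (finCongr hlen.symm (eS s))).2.1 ∨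
      (eK k).val = (I.nbhd.get (finCongr hlen.symm (eS s))).2.2 ↔ _
    rw [hget, e, e, e]
  refine ⟨I, ⟨f, ?_⟩, ?_, ?_⟩
  · intro v w
    by_cases hv : v ∈ K <;> by_cases hw : w ∈ K
    · rw [hfK v hv, hfK w hw]
      constructor
      · intro h
        exact h3 hv hw (fun hvw => h (by subst hvw; rfl))
      · intro h
        exact fun h' => h.ne (congrArg Subtype.val (eK.injective h'))
    · have hw' := (hKS w).1 hw
      rw [hfK v hv, hfS w hw', G.adj_comm]
      exact hNs ⟨w, hw'⟩ ⟨v, hv⟩
    · have hv' := (hKS v).1 hv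
      rw [hfK w hw, hfS v hv']
      exact hNs ⟨v, hv'⟩ ⟨w, hw⟩
    · have hv' := (hKS v).1 hv
      have hw' := (hKS w).1 hw
      rw [hfS v hv', hfS w hw']
      constructor
      · intro h
        exact absurd h (fun h => h)
      · intro h
        exact absurd h (h4 hv' hw' h.ne)
  · ext u
    constructor
    · rintro ⟨v, hv, rfl⟩
      exact ⟨_, (hfK v hv).symm⟩
    · rintro ⟨k, rfl⟩
      exact ⟨eK.symm k, (eK.symm k).2, (hfK _ _).trans (congrArg Sum.inl (eK.apply_symm_apply k))⟩
  · ext u
    constructor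
    · rintro ⟨v, hv, rfl⟩
      exact ⟨_, (hfS v hv).symm⟩
    · rintro ⟨k, rfl⟩
      exact ⟨eS.symm (finCongr hlen k), (eS.symm (finCongr hlen k)).2,
        (hfS _ _).trans (congrArg Sum.inr ((congrArg (finCongr hlen.symm)
          (eS.apply_symm_apply (finCongr hlen k))).trans (Fin.ext rfl)))⟩

/-- **Recognition of clique graphs in `3split₃` is NP-hard**: the inputs are exactly the finite
graphs in `3split₃` with their partitions, and `3SAT` reduces to the problem in polynomial time. -/
theorem result :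
    (∀ I : Input, Is3split3 I.graph (Set.range Sum.inl) (Set.range Sum.inr)) ∧
    (∀ (V : Type) (_ : Finite V) (G : SimpleGraph V) (K S : Set V), Is3split3 G K S →
      ∃ (I : Input) (e : G ≃g I.graph), e '' K = Set.range Sum.inl ∧
        e '' S = Set.range Sum.inr) ∧
    Reduces ThreeSat CliqueGraphs3split3 := by
  refine ⟨is3split3_graph, fun V _ G K S h => exists_input G K S h, reduce, ?_,
    satisfiable_iff_isCliqueGraph⟩
  have hb : ∀ b : Bool, codeBool b = code b := by intro b; cases b <;> rfl
  have hl : ∀ l : ℕ × Bool, codeLit l = code l := codePair_eq codeNat_eq hb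
  have e1 : ThreeSat.enc = (code : Formula → List Bool) :=
    funext (codeList_eq (codePair_eq hl (codePair_eq hl hl)))
  have e2 : CliqueGraphs3split3.enc = (code : Input → List Bool) := by
    funext I
    exact codePair_eq codeNat_eq (codeList_eq (codePair_eq codeNat_eq
      (codePair_eq codeNat_eq codeNat_eq))) (I.k, I.nbhd)
  rw [e1, e2]
  exact pt_reduce.computable

end Pool.Agent.Results.MP_aad05f_lc.RecognitionNPHard
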